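import Mathlib

set_option autoImplicit false
open MeasureTheory Filter Topology Set

namespace Pool.Agent.J4.H76.LV

/-- `(x⁺)^(j+2)` is differentiable with derivative `(j+2) (x⁺)^(j+1)` -/
lemma hasDerivAt_posPart_pow (j : ℕ) (x : ℝ) :
    HasDerivAt (fun x : ℝ => (max x 0) ^ (j + 2)) ((j + 2) * (max x 0) ^ (j + 1)) x := by
  have hl : ∀ y : ℝ, y ≤ 0 → HasDerivWithinAt (fun x : ℝ => (max x 0) ^ (j + 2)) 0 (Iic 0) y := by
    intro y hy
    refine (hasDerivWithinAt_const y (Iic 0) (0 : ℝ)).congr_of_mem ?_ hy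
    intro z hz
    rw [max_eq_right hz]; simp
  have hr : ∀ y : ℝ, 0 ≤ y → HasDerivWithinAt (fun x : ℝ => (max x 0) ^ (j + 2))
      ((j + 2) * y ^ (j + 1)) (Ici 0) y := by
    intro y hy
    have h := (hasDerivAt_pow (j + 2) y).hasDerivWithinAt (s := Ici 0)
    have e : ((j + 2 : ℕ) : ℝ) * y ^ (j + 2 - 1) = (j + 2) * y ^ (j + 1) := by
      push_cast
      rfl
    rw [e] at h
    refine h.congr_of_mem ?_ hy
    intro z hz
    rw [max_eq_left hz]
  rcases lt_trichotomy x 0 with h | h | h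
  · have := (hl x h.le).hasDerivAt (Iic_mem_nhds h)
    rw [max_eq_right h.le]
    simpa using this
  · subst h
    have h1 := hl 0 le_rfl
    have h2 := hr 0 le_rfl
    have e : (j + 2 : ℝ) * (max (0:ℝ) 0) ^ (j + 1) = 0 := by simp
    rw [e]
    have e2 : (j + 2 : ℝ) * (0:ℝ) ^ (j + 1) = 0 := by simp
    rw [e2] at h2
    have := h1.union h2
    rwa [Iic_union_Ici, hasDerivWithinAt_univ] at this
  · have := (hr x h.le).hasDerivAt (Ici_mem_nhds h)
    rw [max_eq_left h.le]
    exact this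

/-- the nonlinearity as a function of `u` -/
noncomputable def gg (u : ℝ) : ℝ :=
  if u ≤ 0 then Real.exp u - (max (u + 1) 0) ^ 2 else Real.exp (-u) - 1

/-- its derivative -/
noncomputable def dgg (u : ℝ) : ℝ :=
  if u ≤ 0 then Real.exp u - 2 * max (u + 1) 0 else -Real.exp (-u)

lemma hasDerivAt_gg (u : ℝ) : HasDerivAt gg (dgg u) u := by
  have hl : ∀ y : ℝ, y ≤ 0 → HasDerivWithinAt gg (Real.exp y - 2 * max (y + 1) 0) (Iic 0) y := by
    intro y hy
    have h1 := (hasDerivAt_posPart_pow 0 (y + 1)).comp_add_const y 1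
    have h2 := ((Real.hasDerivAt_exp y).sub h1).hasDerivWithinAt (s := Iic 0)
    have e : Real.exp y - ((0 : ℕ) + 2 : ℝ) * max (y + 1) 0 ^ (0 + 1)
        = Real.exp y - 2 * max (y + 1) 0 := by
      simp
    rw [e] at h2
    refine h2.congr_of_mem ?_ hy
    intro z hz
    have hz' : z ≤ 0 := hz
    simp [gg, hz']
  have hr : ∀ y : ℝ, 0 ≤ y → HasDerivWithinAt gg (-Real.exp (-y)) (Ici 0) y := by
    intro y hy
    have h1 : HasDerivAt (fun x : ℝ => Real.exp (-x) - 1) (-Real.exp (-y)) y := by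
      have := ((hasDerivAt_neg y).exp).sub_const 1
      simpa using this
    refine h1.hasDerivWithinAt.congr_of_mem ?_ hy
    intro z hz
    have hz' : 0 ≤ z := hz
    rcases eq_or_lt_of_le hz' with h | h
    · subst h; simp [gg]
    · simp [gg, not_le.2 h]
  rcases lt_trichotomy u 0 with h | h | h
  · have := (hl u h.le).hasDerivAt (Iic_mem_nhds h)
    rw [dgg, if_pos h.le]
    exact this
  · subst h
    have h1 := hl 0 le_rfl
    have h2 := hr 0 le_rfl
    have e1 : Real.exp 0 - 2 * max ((0:ℝ) + 1) 0 = -1 := by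
      rw [Real.exp_zero]; norm_num
    have e2 : -Real.exp (-0) = -1 := by simp
    rw [e1] at h1
    rw [e2] at h2
    have := h1.union h2
    rw [Iic_union_Ici, hasDerivWithinAt_univ] at this
    rw [dgg, if_pos le_rfl, e1]
    exact this
  · have := (hr u h.le).hasDerivAt (Ici_mem_nhds h)
    rw [dgg, if_neg (not_le.2 h)]
    exact this

lemma deriv_gg : deriv gg = dgg := funext fun u => (hasDerivAt_gg u).deriv

lemma continuous_dgg : Continuous dgg := by
  unfold dgg
  refine Continuous.if_le (by fun_prop) (by fun_prop) continuous_id continuous_const ?_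
  intro x hx
  have : x = 0 := hx
  subst this
  simp
  norm_num

lemma contDiff_gg : ContDiff ℝ 1 gg := by
  rw [contDiff_one_iff_deriv]
  refine ⟨fun u => (hasDerivAt_gg u).differentiableAt, ?_⟩
  rw [deriv_gg]
  exact continuous_dgg

lemma gg_zero : gg 0 = 0 := by
  simp [gg]

lemma gg_of_le {u : ℝ} (h : u ≤ -1) : gg u = Real.exp u := by
  rw [gg, if_pos (by linarith), max_eq_right (by linarith)]
  simp

lemma dgg_of_le {u : ℝ} (h : u ≤ -1) : dgg u = Real.exp u := by
  rw [dgg, if_pos (by linarith), max_eq_right (by linarith)]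
  simp

lemma gg_pos {u : ℝ} (h : u < 0) : 0 < gg u := by
  rcases le_or_gt u (-1) with h1 | h1
  · rw [gg_of_le h1]; exact Real.exp_pos u
  · rw [gg, if_pos h.le, max_eq_left (by linarith)]
    have := Real.add_one_le_exp u
    nlinarith

lemma gg_nonneg {u : ℝ} (h : u ≤ 0) : 0 ≤ gg u := by
  rcases eq_or_lt_of_le h with h1 | h1
  · rw [h1, gg_zero]
  · exact (gg_pos h1).le

lemma gg_le_exp {u : ℝ} (h : u ≤ 0) : gg u ≤ Real.exp u := by
  rw [gg, if_pos h]
  have : 0 ≤ (max (u + 1) 0) ^ 2 := by positivity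
  linarith

lemma bound_gg (u : ℝ) : |gg u| + |deriv gg u| ≤ 3 := by
  rw [deriv_gg]
  rcases le_or_gt u 0 with h | h
  · have h1 := gg_nonneg h
    have h2 := gg_le_exp h
    have h3 : Real.exp u ≤ 1 := Real.exp_le_one_iff.2 h
    have h4 := Real.exp_pos u
    have h5 : |gg u| ≤ 1 := by rw [abs_of_nonneg h1]; linarith
    have h6 : |dgg u| ≤ 2 := by
      rw [dgg, if_pos h, abs_le]
      have a1 : max (u + 1) 0 ≤ 1 := max_le (by linarith) (by norm_num)
      have a2 : 0 ≤ max (u + 1) 0 := le_max_right _ _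
      constructor <;> linarith
    linarith
  · have h3 : Real.exp (-u) ≤ 1 := Real.exp_le_one_iff.2 (by linarith)
    have h4 := Real.exp_pos (-u)
    rw [gg, dgg, if_neg (not_le.2 h), if_neg (not_le.2 h)]
    have h5 : |Real.exp (-u) - 1| ≤ 1 := by rw [abs_le]; constructor <;> linarith
    have h6 : |-Real.exp (-u)| ≤ 1 := by rw [abs_le]; constructor <;> linarith
    linarith

lemma dgg_nonpos {u : ℝ} (h1 : -(1 / 2) ≤ u) (h2 : u ≤ 0) : deriv gg u ≤ 0 := by
  rw [deriv_gg, dgg, if_pos h2, max_eq_left (by linarith)]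
  have : Real.exp u ≤ 1 := Real.exp_le_one_iff.2 h2
  linarith

lemma integrableOn_gg {u : ℝ} (h : u ≤ 0) : IntegrableOn gg (Iic u) := by
  refine Integrable.mono' (integrableOn_exp_Iic u) contDiff_gg.continuous.aestronglyMeasurable ?_
  filter_upwards [ae_restrict_mem measurableSet_Iic] with x hx
  have hx0 : x ≤ 0 := le_trans hx h
  rw [Real.norm_eq_abs, abs_of_nonneg (gg_nonneg hx0)]
  exact gg_le_exp hx0

lemma integral_gg {u : ℝ} (h : u ≤ 0) :
    ∫ x in Iic u, gg x = Real.exp u - (max (u + 1) 0) ^ 3 / 3 := by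
  have hd : ∀ x ∈ Iic u, HasDerivAt (fun x : ℝ => Real.exp x - (max (x + 1) 0) ^ 3 / 3)
      (Real.exp x - (max (x + 1) 0) ^ 2) x := by
    intro x _
    have h1 := ((hasDerivAt_posPart_pow 1 (x + 1)).comp_add_const x 1).div_const 3
    have h2 := (Real.hasDerivAt_exp x).sub h1
    refine h2.congr_deriv ?_
    norm_num
  have e : ∫ x in Iic u, gg x = ∫ x in Iic u, (Real.exp x - (max (x + 1) 0) ^ 2) := by
    refine setIntegral_congr_fun measurableSet_Iic fun x hx => ?_
    have hx0 : x ≤ 0 := le_trans hx h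
    rw [gg, if_pos hx0]
  have hi : IntegrableOn (fun x : ℝ => Real.exp x - (max (x + 1) 0) ^ 2) (Iic u) := by
    refine (integrableOn_gg h).congr_fun (fun x hx => ?_) measurableSet_Iic
    have hx0 : x ≤ 0 := le_trans hx h
    rw [gg, if_pos hx0]
  have ht : Tendsto (fun x : ℝ => Real.exp x - (max (x + 1) 0) ^ 3 / 3) atBot (𝓝 0) := by
    refine Real.tendsto_exp_atBot.congr' ?_
    filter_upwards [eventually_le_atBot (-1 : ℝ)] with x hx
    rw [max_eq_right (by linarith)]
    simp
  rw [e, integral_Iic_of_hasDerivAt_of_tendsto' hd hi ht, sub_zero]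

lemma ratio_ge {u : ℝ} (h : u < 0) : 1 ≤ (∫ x in Iic u, gg x) / gg u := by
  rw [le_div_iff₀ (gg_pos h), one_mul, integral_gg h.le, gg, if_pos h.le]
  have a1 : max (u + 1) 0 ≤ 1 := max_le (by linarith) (by norm_num)
  have a2 : 0 ≤ max (u + 1) 0 := le_max_right _ _
  have a3 : 0 ≤ (max (u + 1) 0) ^ 2 := by positivity
  nlinarith

lemma tendsto_ratio : Tendsto (fun u => (∫ x in Iic u, gg x) / gg u) atBot (𝓝 1) := by
  refine tendsto_const_nhds.congr' ?_
  filter_upwards [eventually_le_atBot (-1 : ℝ)] with x hx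
  rw [integral_gg (by linarith), gg_of_le hx, max_eq_right (by linarith)]
  have := (Real.exp_pos x).ne'
  field_simp
  simp

/-- integrability for `M > c` -/
lemma integrable_fg {c M : ℝ} (hM0 : 0 < M) (hM : c < M) :
    IntegrableOn (fun t => Real.exp (c * t) * gg (-M * t)) (Ioi 0) := by
  have h1 : IntegrableOn (fun t : ℝ => Real.exp ((-(M - c)) * t)) (Ioi 0) := by
    exact exp_neg_integrableOn_Ioi 0 (by linarith)
  refine Integrable.mono' h1 ?_ ?_
  · refine Continuous.aestronglyMeasurable ?_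
    have := contDiff_gg.continuous
    fun_prop
  · filter_upwards [ae_restrict_mem measurableSet_Ioi] with t ht
    have ht0 : (0 : ℝ) < t := ht
    have hneg : -M * t ≤ 0 := by nlinarith
    rw [Real.norm_eq_abs, abs_of_nonneg (mul_nonneg (Real.exp_pos _).le (gg_nonneg hneg))]
    calc Real.exp (c * t) * gg (-M * t) ≤ Real.exp (c * t) * Real.exp (-M * t) :=
          mul_le_mul_of_nonneg_left (gg_le_exp hneg) (Real.exp_pos _).le
      _ = Real.exp (-(M - c) * t) := by rw [← Real.exp_add]; congr 1; ring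

lemma not_integrable_fg {c M : ℝ} (hM0 : 0 < M) (hM : M ≤ c) :
    ¬ IntegrableOn (fun t => Real.exp (c * t) * gg (-M * t)) (Ioi 0) := by
  intro h
  have h1 : IntegrableOn (fun t => Real.exp (c * t) * gg (-M * t)) (Ioi (1 / M)) :=
    h.mono_set (Ioi_subset_Ioi (by positivity))
  have h2 : IntegrableOn (fun _ : ℝ => (1 : ℝ)) (Ioi (1 / M)) := by
    refine Integrable.mono' h1 aestronglyMeasurable_const ?_
    filter_upwards [ae_restrict_mem measurableSet_Ioi] with t ht
    have ht0 : 1 / M < t := ht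
    have ht1 : 1 < M * t := by
      rw [div_lt_iff₀ hM0] at ht0; linarith
    have htpos : 0 < t := lt_trans (by positivity) ht0
    rw [gg_of_le (by linarith), ← Real.exp_add, norm_one]
    apply Real.one_le_exp
    nlinarith
  rw [integrableOn_const_iff] at h2
  rcases h2 with h3 | h3
  · norm_num at h3
  · simp at h3

lemma set_eq {c : ℝ} (hc : 0 < c) :
    {M : ℝ | 0 < M ∧ IntegrableOn (fun t => Real.exp (c * t) * gg (-M * t)) (Ioi 0)} = Ioi c := by
  ext M
  simp only [mem_ofPred_eq, mem_Ioi]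
  constructor
  · rintro ⟨h0, h1⟩
    by_contra h
    exact not_integrable_fg h0 (not_lt.1 h) h1
  · intro h
    exact ⟨hc.trans h, integrable_fg (hc.trans h) h⟩

lemma integrable_tf {c : ℝ} (hc : 0 < c) :
    IntegrableOn (fun t : ℝ => |t * Real.exp (c * t)|) (Iic 0) := by
  have h1 : IntegrableOn (fun x : ℝ => x ^ (1 : ℝ) * Real.exp (-c * x ^ (1 : ℝ))) (Ioi 0) :=
    integrableOn_rpow_mul_exp_neg_mul_rpow (by norm_num) one_pos hc
  have h2 : IntegrableOn (fun x : ℝ => x * Real.exp (-c * x)) (Ioi 0) := by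
    refine h1.congr_fun (fun x _ => ?_) measurableSet_Ioi
    simp
  have h3 : IntegrableOn (fun x : ℝ => -x * Real.exp (c * x)) (Iio 0) := by
    have := (Measure.measurePreserving_neg (volume : Measure ℝ)).integrableOn_comp_preimage
      (MeasurableEquiv.neg ℝ).measurableEmbedding (f := fun x : ℝ => x * Real.exp (-c * x))
      (s := Ioi 0)
    have h4 := this.2 h2
    have e1 : (fun x : ℝ => -x) ⁻¹' Ioi 0 = Iio 0 := by
      ext x; simp
    rw [show (Neg.neg : ℝ → ℝ) ⁻¹' Ioi 0 = Iio 0 from e1] at h4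
    refine h4.congr_fun (fun x _ => ?_) measurableSet_Iio
    simp
  rw [← integrableOn_Iic_iff_integrableOn_Iio] at h3
  refine h3.congr_fun (fun x hx => ?_) measurableSet_Iic
  have hx0 : x ≤ 0 := hx
  simp only
  rw [abs_of_nonpos (mul_nonpos_of_nonpos_of_nonneg hx0 (Real.exp_pos _).le)]
  ring

end Pool.Agent.J4.H76.LV
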