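import Mathlib
import Pool.Agent.H314.CS.Dist

set_option autoImplicit false
open MeasureTheory Laplacian InnerProductSpace Filter Topology Set ComplexConjugate

namespace Pool.Agent.J4.H76.LV

abbrev E2 := EuclideanSpace ℝ (Fin 2)

/-- the identification of the Euclidean plane with `ℂ` -/
noncomputable def cz : E2 ≃ₗᵢ[ℝ] ℂ := Complex.orthonormalBasisOneI.repr.symm

/-- `cz` as a continuous linear map -/
noncomputable def czL : E2 →L[ℝ] ℂ := cz.toContinuousLinearEquiv.toContinuousLinearMap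

lemma czL_apply (x : E2) : czL x = cz x := rfl

lemma cz_basis (i : Fin 2) : czL (EuclideanSpace.basisFun (Fin 2) ℝ i) = ![1, Complex.I] i := by
  rw [czL_apply, cz]
  simp [← Complex.coe_orthonormalBasisOneI]

/-- real derivative of `z ↦ (2/(1+|F|²)) F conj F'` -/
lemma hasFDerivAt_A {F F' F'' : ℂ → ℂ} (h1 : ∀ z, HasDerivAt F (F' z) z)
    (h2 : ∀ z, HasDerivAt F' (F'' z) z) (z : ℂ) :
    ∃ A' : ℂ →L[ℝ] ℂ, HasFDerivAt (fun z => (2 * (1 + ‖F z‖ ^ 2)⁻¹ : ℝ) • (F z * conj (F' z))) A' z ∧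
      ∀ k, A' k = (2 * (1 + ‖F z‖ ^ 2)⁻¹ : ℝ) • (F' z * k * conj (F' z) + F z * conj (F'' z * k)) -
        (4 * inner ℝ (F z) (F' z * k) * ((1 + ‖F z‖ ^ 2)⁻¹) ^ 2 : ℝ) • (F z * conj (F' z)) := by
  have d1 : HasFDerivAt F ((F' z) • (1 : ℂ →L[ℝ] ℂ)) z := (h1 z).complexToReal_fderiv
  have d2 : HasFDerivAt F' ((F'' z) • (1 : ℂ →L[ℝ] ℂ)) z := (h2 z).complexToReal_fderiv
  have d3 : HasFDerivAt (fun z => conj (F' z)) ((Complex.conjCLE : ℂ →L[ℝ] ℂ).comp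
      ((F'' z) • (1 : ℂ →L[ℝ] ℂ))) z :=
    (Complex.conjCLE : ℂ →L[ℝ] ℂ).hasFDerivAt.comp z d2
  have d4 := d1.mul d3
  have d5 := (d1.norm_sq).const_add (1 : ℝ)
  have hne : 1 + ‖F z‖ ^ 2 ≠ 0 := by positivity
  have d6 := ((hasDerivAt_inv hne).comp_hasFDerivAt z d5).const_mul (2 : ℝ)
  have d7 := d6.smul d4
  refine ⟨_, d7, fun k => ?_⟩
  simp
  ring

/-- the Laplacian of `log (1 + |F|²)` for holomorphic `F` -/
lemma laplacian_log {F F' F'' : ℂ → ℂ} (h1 : ∀ z, HasDerivAt F (F' z) z)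
    (h2 : ∀ z, HasDerivAt F' (F'' z) z) (x : E2) :
    Δ (fun x : E2 => Real.log (1 + ‖F (cz x)‖ ^ 2)) x =
      4 * ‖F' (cz x)‖ ^ 2 * ((1 + ‖F (cz x)‖ ^ 2)⁻¹) ^ 2 := by
  obtain ⟨A', hA, hA'⟩ := hasFDerivAt_A h1 h2 (cz x)
  set A : ℂ → ℂ := fun z => (2 * (1 + ‖F z‖ ^ 2)⁻¹ : ℝ) • (F z * conj (F' z)) with hAdef
  have g1 : ∀ y : E2, HasFDerivAt (fun x : E2 => Real.log (1 + ‖F (cz x)‖ ^ 2))
      ((innerSL ℝ (A (cz y))).comp czL) y := by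
    intro y
    have e1 : HasFDerivAt F ((F' (cz y)) • (1 : ℂ →L[ℝ] ℂ)) (cz y) := (h1 _).complexToReal_fderiv
    have e2 : HasFDerivAt (fun x : E2 => F (cz x)) (((F' (cz y)) • (1 : ℂ →L[ℝ] ℂ)).comp czL) y :=
      HasFDerivAt.comp (f := fun x : E2 => cz x) y e1 czL.hasFDerivAt
    have e3 := (e2.norm_sq).const_add (1 : ℝ)
    have hne : 1 + ‖F (cz y)‖ ^ 2 ≠ 0 := by positivity
    have e4 := e3.log hne
    refine e4.congr_fderiv ?_
    ext v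
    simp only [hAdef]
    obtain ⟨c, hc⟩ : ∃ c, c = (1 + ‖F (cz y)‖ ^ 2)⁻¹ := ⟨_, rfl⟩
    rw [← hc]
    simp [Complex.inner, czL_apply]
    ring
  have g2 : HasFDerivAt (fun y : E2 => (innerSL ℝ (A (cz y))).comp czL)
      (((ContinuousLinearMap.compL ℝ E2 ℂ ℝ).flip czL).comp
        ((innerSL ℝ : ℂ →L[ℝ] ℂ →L[ℝ] ℝ).comp (A'.comp czL))) x := by
    have e1 : HasFDerivAt (fun y : E2 => A (cz y)) (A'.comp czL) x :=
      HasFDerivAt.comp (f := fun x : E2 => cz x) x hA czL.hasFDerivAt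
    have e2 := ((innerSL ℝ : ℂ →L[ℝ] ℂ →L[ℝ] ℝ).hasFDerivAt (x := A (cz x))).comp x e1
    exact (((ContinuousLinearMap.compL ℝ E2 ℂ ℝ).flip czL).hasFDerivAt).comp x e2
  rw [Pool.Agent.H314.CS.LL.laplacian_eq_of_hasFDerivAt (EuclideanSpace.basisFun (Fin 2) ℝ)
    (Filter.Eventually.of_forall g1) g2]
  rw [Fin.sum_univ_two]
  simp only [ContinuousLinearMap.comp_apply, ContinuousLinearMap.flip_apply,
    ContinuousLinearMap.compL_apply, cz_basis, hA', innerSL_apply_apply]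
  have hX : (1 + ‖F (cz x)‖ ^ 2) ≠ 0 := by positivity
  obtain ⟨c, hc⟩ : ∃ c, c = (1 + ‖F (cz x)‖ ^ 2)⁻¹ := ⟨_, rfl⟩
  have hc1 : c * (1 + ‖F (cz x)‖ ^ 2) = 1 := by rw [hc]; exact inv_mul_cancel₀ hX
  rw [← hc]
  rw [← Complex.normSq_eq_norm_sq, Complex.normSq_apply] at hc1 ⊢
  have hcre : ((c : ℂ) ^ 2).re = c ^ 2 := by norm_cast
  simp [Complex.inner, hcre]
  generalize (F (cz x)).re = a at *
  generalize (F (cz x)).im = b at *
  generalize (F' (cz x)).re = p at *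
  generalize (F' (cz x)).im = q at *
  generalize (F'' (cz x)).re = s at *
  generalize (F'' (cz x)).im = t at *
  linear_combination (-4 * c * (p ^ 2 + q ^ 2)) * hc1

end Pool.Agent.J4.H76.LV
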