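import Mathlib
import Pool.Agent.J4.H76.LV.Lap
import Pool.Agent.J4.H76.LV.G

set_option autoImplicit false
open MeasureTheory Laplacian InnerProductSpace Filter Topology Set ComplexConjugate

namespace Pool.Agent.J4.H76.LV

/-- the holomorphic function `s z^(m+1) - 1` -/
noncomputable def FF (m : ℕ) (s : ℝ) (z : ℂ) : ℂ := s * z ^ (m + 1) - 1

/-- the smooth part of the solution -/
noncomputable def WW (m : ℕ) (s : ℝ) (x : E2) : ℝ :=
  Real.log (8 * s ^ 2 * (m + 1) ^ 2) - 2 * Real.log (1 + ‖FF m s (cz x)‖ ^ 2)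

/-- the solution -/
noncomputable def uu (N : ℝ) (m : ℕ) (s : ℝ) (x : E2) : ℝ :=
  2 * N * Real.log ‖x‖ + WW m s x

lemma hasDerivAt_FF (m : ℕ) (s : ℝ) (z : ℂ) :
    HasDerivAt (FF m s) (s * (m + 1) * z ^ m) z := by
  have h := ((hasDerivAt_pow (m + 1) z).const_mul (s : ℂ)).sub_const 1
  refine h.congr_deriv ?_
  push_cast
  ring

lemma contDiff_FF (m : ℕ) (s : ℝ) (j : WithTop ℕ∞) : ContDiff ℝ j (fun x : E2 => FF m s (cz x)) := by
  unfold FF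
  have : ContDiff ℝ j (fun x : E2 => cz x) := czL.contDiff
  exact (contDiff_const.mul (this.pow _)).sub contDiff_const

lemma contDiff_logF (m : ℕ) (s : ℝ) (j : ℕ∞) :
    ContDiff ℝ j (fun x : E2 => Real.log (1 + ‖FF m s (cz x)‖ ^ 2)) := by
  refine ContDiff.log ?_ (fun x => by positivity)
  exact contDiff_const.add ((contDiff_FF m s j).norm_sq ℝ)

lemma contDiff_WW (m : ℕ) (s : ℝ) (j : ℕ∞) : ContDiff ℝ j (WW m s) := by
  unfold WW
  exact contDiff_const.sub (contDiff_const.mul (contDiff_logF m s j))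

lemma laplacian_WW (m : ℕ) (s : ℝ) (x : E2) :
    Δ (WW m s) x = -(8 * s ^ 2 * (m + 1) ^ 2 * ‖x‖ ^ (2 * m)) *
      ((1 + ‖FF m s (cz x)‖ ^ 2)⁻¹) ^ 2 := by
  have h2 : ∀ z : ℂ, HasDerivAt (fun z : ℂ => (s : ℂ) * (m + 1) * z ^ m)
      ((s : ℂ) * (m + 1) * (m * z ^ (m - 1))) z := fun z =>
    (hasDerivAt_pow m z).const_mul _
  have hL := laplacian_log (hasDerivAt_FF m s) h2 x
  have hsm : ContDiff ℝ 2 (fun x : E2 => Real.log (1 + ‖FF m s (cz x)‖ ^ 2)) := contDiff_logF m s 2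
  have e1 : WW m s = (fun _ : E2 => Real.log (8 * s ^ 2 * (m + 1) ^ 2)) +
      (-2 : ℝ) • (fun x : E2 => Real.log (1 + ‖FF m s (cz x)‖ ^ 2)) := by
    funext x
    simp [WW]
    ring
  have hsm2 : ContDiffAt ℝ 2 ((-2 : ℝ) • (fun x : E2 => Real.log (1 + ‖FF m s (cz x)‖ ^ 2))) x :=
    hsm.contDiffAt.const_smul (-2 : ℝ)
  have hc2 : ContDiffAt ℝ 2 (fun _ : E2 => Real.log (8 * s ^ 2 * (m + 1) ^ 2)) x := contDiffAt_const
  rw [e1, ContDiffAt.laplacian_add hc2 hsm2, laplacian_smul _ hsm.contDiffAt, hL]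
  have e2 : Δ (fun _ : E2 => Real.log (8 * s ^ 2 * (m + 1) ^ 2)) x = 0 := by
    rw [laplacian_const]; rfl
  have e3 : ‖(s : ℂ) * (m + 1) * (cz x) ^ m‖ ^ 2 = s ^ 2 * (m + 1) ^ 2 * ‖x‖ ^ (2 * m) := by
    have : ‖((m : ℂ) + 1)‖ = m + 1 := by
      have := Complex.norm_natCast (m + 1)
      push_cast at this
      exact this
    rw [norm_mul, norm_mul, norm_pow, this, LinearIsometryEquiv.norm_map, Complex.norm_real,
      mul_pow, mul_pow, Real.norm_eq_abs, sq_abs, ← pow_mul, mul_comm m 2]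
  rw [e2, e3, smul_eq_mul]
  ring

lemma exp_uu {N : ℝ} {m : ℕ} {s : ℝ} (hs : 0 < s) {x : E2} (hx : x ≠ 0) :
    Real.exp (uu N m s x) = ‖x‖ ^ (2 * N) * (8 * s ^ 2 * (m + 1) ^ 2) *
      ((1 + ‖FF m s (cz x)‖ ^ 2)⁻¹) ^ 2 := by
  have hxp : 0 < ‖x‖ := norm_pos_iff.2 hx
  have hX : 0 < 1 + ‖FF m s (cz x)‖ ^ 2 := by positivity
  have hc : 0 < 8 * s ^ 2 * ((m : ℝ) + 1) ^ 2 := by positivity
  rw [uu, WW, Real.exp_add, Real.exp_sub, Real.exp_log hc, Real.rpow_def_of_pos hxp]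
  have e1 : Real.exp (2 * Real.log (1 + ‖FF m s (cz x)‖ ^ 2)) = (1 + ‖FF m s (cz x)‖ ^ 2) ^ 2 := by
    have := Real.exp_log hX
    rw [two_mul, Real.exp_add, this]
    ring
  rw [e1, show 2 * N * Real.log ‖x‖ = Real.log ‖x‖ * (2 * N) by ring]
  field_simp

/-- the solution is at most `-1` if `s` is small -/
lemma exists_small (N : ℝ) (m : ℕ) (hN : 0 ≤ N) (hNm : N ≤ m) :
    ∃ s : ℝ, 0 < s ∧ ∀ x : E2, x ≠ 0 → uu N m s x ≤ -1 := by
  obtain ⟨c, hc⟩ : ∃ c : ℝ, c = Real.exp (-1) / (8 * ((m : ℝ) + 1) ^ 2) := ⟨_, rfl⟩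
  have hc0 : 0 < c := by rw [hc]; positivity
  obtain ⟨R, hR⟩ : ∃ R : ℝ, R = 1 + 2 / c := ⟨_, rfl⟩
  have hR1 : 1 ≤ R := by rw [hR]; have : 0 < 2 / c := by positivity
                         linarith
  have hRc : 2 ≤ c * R ^ 2 := by
    have h1 : 2 / c ≤ R := by rw [hR]; linarith
    have h2 : R ≤ R ^ 2 := by nlinarith
    have h3 : 2 / c ≤ R ^ 2 := h1.trans h2
    rw [div_le_iff₀ hc0] at h3
    linarith
  obtain ⟨s, hs⟩ : ∃ s : ℝ, s = min 1 (c / R ^ (2 * m)) := ⟨_, rfl⟩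
  have hRpos : 0 < R ^ (2 * m) := by positivity
  have hs0 : 0 < s := by rw [hs]; exact lt_min one_pos (by positivity)
  have hs1 : s ≤ 1 := by rw [hs]; exact min_le_left _ _
  have hs2 : s * R ^ (2 * m) ≤ c := by
    have : s ≤ c / R ^ (2 * m) := by rw [hs]; exact min_le_right _ _
    rwa [le_div_iff₀ hRpos] at this
  refine ⟨s, hs0, fun x hx => ?_⟩
  have hxp : 0 < ‖x‖ := norm_pos_iff.2 hx
  obtain ⟨X, hX⟩ : ∃ X : ℝ, X = 1 + ‖FF m s (cz x)‖ ^ 2 := ⟨_, rfl⟩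
  have hX1 : 1 ≤ X := by rw [hX]; have : 0 ≤ ‖FF m s (cz x)‖ ^ 2 := by positivity
                         linarith
  have hX0 : 0 < X := by linarith
  -- the key estimate
  have key : s ^ 2 * ‖x‖ ^ (2 * N) * (X⁻¹) ^ 2 ≤ c := by
    have hXinv : (X⁻¹) ^ 2 ≤ X⁻¹ := by
      have h1 : X⁻¹ ≤ 1 := inv_le_one_of_one_le₀ hX1
      have h0 : 0 ≤ X⁻¹ := by positivity
      nlinarith
    have hXinv1 : X⁻¹ ≤ 1 := inv_le_one_of_one_le₀ hX1
    have hXinv0 : 0 ≤ X⁻¹ := by positivity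
    have hpow : ‖x‖ ^ (2 * N) ≤ (max 1 ‖x‖) ^ (2 * m) := by
      have h1 : ‖x‖ ^ (2 * N) ≤ (max 1 ‖x‖) ^ (2 * N) :=
        Real.rpow_le_rpow hxp.le (le_max_right _ _) (by linarith)
      have h2 : (max 1 ‖x‖) ^ (2 * N) ≤ (max 1 ‖x‖) ^ ((2 * m : ℕ) : ℝ) := by
        apply Real.rpow_le_rpow_of_exponent_le (le_max_left _ _)
        push_cast
        linarith
      rw [Real.rpow_natCast] at h2
      exact h1.trans h2
    rcases le_or_gt (max 1 ‖x‖) R with h | h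
    · have h1 : (max 1 ‖x‖) ^ (2 * m) ≤ R ^ (2 * m) := pow_le_pow_left₀ (by positivity) h _
      have h2 : ‖x‖ ^ (2 * N) ≤ R ^ (2 * m) := hpow.trans h1
      have h3 : s ^ 2 ≤ s := by nlinarith
      have h4 : 0 ≤ ‖x‖ ^ (2 * N) := by positivity
      calc s ^ 2 * ‖x‖ ^ (2 * N) * (X⁻¹) ^ 2 ≤ s * R ^ (2 * m) * 1 := by
            apply mul_le_mul _ (hXinv.trans hXinv1) (by positivity) (by positivity)
            exact mul_le_mul h3 h2 h4 hs0.le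
        _ ≤ c := by linarith
    · have hx1 : 1 < ‖x‖ := by
        by_contra hcon
        rw [max_eq_left (not_lt.1 hcon)] at h
        linarith
      rw [max_eq_right hx1.le] at h hpow
      -- `(s |x|^(m+1))² ≤ 2 X`
      have h5 : s * ‖x‖ ^ (m + 1) ≤ 1 + ‖FF m s (cz x)‖ := by
        have e : (s : ℂ) * (cz x) ^ (m + 1) = FF m s (cz x) + 1 := by rw [FF]; ring
        have h6 : ‖(s : ℂ) * (cz x) ^ (m + 1)‖ = s * ‖x‖ ^ (m + 1) := by
          rw [norm_mul, norm_pow, LinearIsometryEquiv.norm_map, Complex.norm_real,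
            Real.norm_eq_abs, abs_of_pos hs0]
        rw [← h6, e]
        have := norm_add_le (FF m s (cz x)) 1
        rw [norm_one] at this
        linarith
      have h7 : (s * ‖x‖ ^ (m + 1)) ^ 2 ≤ 2 * X := by
        have h0 : 0 ≤ s * ‖x‖ ^ (m + 1) := by positivity
        have h8 : (s * ‖x‖ ^ (m + 1)) ^ 2 ≤ (1 + ‖FF m s (cz x)‖) ^ 2 := pow_le_pow_left₀ h0 h5 2
        rw [hX]
        nlinarith [sq_nonneg (1 - ‖FF m s (cz x)‖)]
      have h9 : s ^ 2 * ‖x‖ ^ (2 * m) * ‖x‖ ^ 2 ≤ 2 * X := by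
        have : (s * ‖x‖ ^ (m + 1)) ^ 2 = s ^ 2 * ‖x‖ ^ (2 * m) * ‖x‖ ^ 2 := by ring
        linarith
      have h10 : 2 ≤ c * ‖x‖ ^ 2 := by
        have : R ^ 2 ≤ ‖x‖ ^ 2 := pow_le_pow_left₀ (by linarith) h.le 2
        nlinarith
      have h11 : s ^ 2 * ‖x‖ ^ (2 * m) ≤ c * X := by
        have hx2 : 0 < ‖x‖ ^ 2 := by positivity
        have : s ^ 2 * ‖x‖ ^ (2 * m) * ‖x‖ ^ 2 ≤ c * X * ‖x‖ ^ 2 := by nlinarith
        exact le_of_mul_le_mul_right this hx2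
      calc s ^ 2 * ‖x‖ ^ (2 * N) * (X⁻¹) ^ 2 ≤ c * X * X⁻¹ := by
            apply mul_le_mul _ hXinv (by positivity) (by positivity)
            exact (mul_le_mul_of_nonneg_left hpow (by positivity)).trans h11
        _ = c := by field_simp
  have h1 : Real.exp (uu N m s x) ≤ Real.exp (-1) := by
    rw [exp_uu hs0 hx, ← hX]
    have e : ‖x‖ ^ (2 * N) * (8 * s ^ 2 * ((m : ℝ) + 1) ^ 2) * (X⁻¹) ^ 2 =
        (8 * ((m : ℝ) + 1) ^ 2) * (s ^ 2 * ‖x‖ ^ (2 * N) * (X⁻¹) ^ 2) := by ring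
    rw [e]
    have hm : 0 < 8 * ((m : ℝ) + 1) ^ 2 := by positivity
    calc (8 * ((m : ℝ) + 1) ^ 2) * (s ^ 2 * ‖x‖ ^ (2 * N) * (X⁻¹) ^ 2)
        ≤ (8 * ((m : ℝ) + 1) ^ 2) * c := mul_le_mul_of_nonneg_left key hm.le
      _ = Real.exp (-1) := by rw [hc]; field_simp
  exact Real.exp_le_exp.1 h1

/-- `‖x‖^(2k) e^u = - Δ W` away from the origin -/
lemma weight_exp {N k : ℝ} {m : ℕ} {s : ℝ} (hs : 0 < s) (hk : N + k = m) {x : E2} (hx : x ≠ 0) :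
    ‖x‖ ^ (2 * k) * Real.exp (uu N m s x) = - Δ (WW m s) x := by
  have hxp : 0 < ‖x‖ := norm_pos_iff.2 hx
  rw [exp_uu hs hx, laplacian_WW]
  have e : ‖x‖ ^ (2 * m) = ‖x‖ ^ (2 * k) * ‖x‖ ^ (2 * N) := by
    rw [← Real.rpow_add hxp, ← Real.rpow_natCast]
    congr 1
    push_cast
    linarith
  rw [e]
  ring

lemma locInt_uu (N : ℝ) (m : ℕ) (s : ℝ) : LocallyIntegrable (uu N m s) := by
  have h1 := (Pool.Agent.H314.CS.LL.locInt_log0).smul (2 * N)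
  have h2 := (contDiff_WW m s 0).continuous.locallyIntegrable (μ := (volume : Measure E2))
  exact h1.add h2

lemma contDiffOn_uu (N : ℝ) (m : ℕ) (s : ℝ) (j : ℕ∞) : ContDiffOn ℝ j (uu N m s) {0}ᶜ := by
  intro x hx
  have hx0 : x ≠ 0 := hx
  have h1 : ContDiffAt ℝ j (fun x : E2 => Real.log ‖x‖) x :=
    (contDiffAt_norm ℝ hx0).log (norm_ne_zero_iff.2 hx0)
  exact ((contDiffAt_const.mul h1).add (contDiff_WW m s j).contDiffAt).contDiffWithinAt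

/-- distributional equation -/
lemma dist_uu {N k : ℝ} {m : ℕ} {s : ℝ} (hs : 0 < s) (hk : N + k = m)
    {φ : E2 → ℝ} (hφ : ContDiff ℝ 2 φ) (hc : HasCompactSupport φ) :
    ∫ x, uu N m s x * Δ φ x = (∫ x : E2, -(‖x‖ ^ (2 * k) * Real.exp (uu N m s x)) * φ x) +
      4 * Real.pi * N * φ 0 := by
  have h := Pool.Agent.H314.CS.dist_identity (N := 1) (fun _ => 0) (fun _ => 2 * N) (WW m s) φ
    (contDiff_WW m s 2) hφ hc
  simp only [Finset.univ_unique, Finset.sum_singleton, sub_zero] at h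
  have e1 : ∫ x : E2, -(‖x‖ ^ (2 * k) * Real.exp (uu N m s x)) * φ x = ∫ x : E2, Δ (WW m s) x * φ x := by
    refine integral_congr_ae ?_
    have hz : ∀ᵐ z : E2, z ≠ 0 := by
      rw [ae_iff]; simp
    filter_upwards [hz] with x hx
    rw [weight_exp hs hk hx, neg_neg]
  rw [e1]
  have e2 : ∫ x, uu N m s x * Δ φ x = ∫ x : E2, (2 * N * Real.log ‖x‖ + WW m s x) * Δ φ x := rfl
  rw [e2, h]
  ring

end Pool.Agent.J4.H76.LV
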