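import Mathlib
import Pool.Agent.J4.H76.LV.Sol

set_option autoImplicit false
open MeasureTheory Laplacian InnerProductSpace Filter Topology Set ComplexConjugate

namespace Pool.Agent.J4.H76.LV

/-- values of `u` in terms of `|F|` -/
lemma WW_inj {m : ℕ} {s : ℝ} {x y : E2} (h : WW m s x = WW m s y) :
    ‖FF m s (cz x)‖ = ‖FF m s (cz y)‖ := by
  unfold WW at h
  have h1 : Real.log (1 + ‖FF m s (cz x)‖ ^ 2) = Real.log (1 + ‖FF m s (cz y)‖ ^ 2) := by linarith
  have h2 := Real.log_injOn_pos (show (1 + ‖FF m s (cz x)‖ ^ 2) ∈ Ioi (0:ℝ) by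
      simp only [mem_Ioi]; positivity) (show (1 + ‖FF m s (cz y)‖ ^ 2) ∈ Ioi (0:ℝ) by
      simp only [mem_Ioi]; positivity) h1
  have h3 : ‖FF m s (cz x)‖ ^ 2 = ‖FF m s (cz y)‖ ^ 2 := by linarith
  exact (pow_left_inj₀ (norm_nonneg _) (norm_nonneg _) (by norm_num)).1 h3

lemma not_radial_zero (N : ℝ) (m : ℕ) {s : ℝ} (hs : 0 < s) :
    ¬ ∃ h : ℝ → ℝ, ∀ x : E2, x ≠ 0 → uu N m s x = h ‖x - 0‖ := by
  rintro ⟨h, hh⟩
  obtain ⟨w, hw⟩ : ∃ w : ℂ, w ^ (m + 1) = -1 := by
    have := IsAlgClosed.exists_pow_nat_eq (-1 : ℂ) (n := m + 1) (Nat.succ_pos m)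
    obtain ⟨z, hz⟩ := this
    exact ⟨z, hz⟩
  have hwn : ‖w‖ = 1 := by
    have h1 : ‖w‖ ^ (m + 1) = 1 := by rw [← norm_pow, hw, norm_neg, norm_one]
    exact (pow_eq_one_iff_of_nonneg (norm_nonneg _) (Nat.succ_ne_zero m)).1 h1
  have hx := hh (cz.symm 1) (by
    intro h0
    have := congrArg cz h0
    simp at this)
  have hy := hh (cz.symm w) (by
    intro h0
    have := congrArg cz h0
    rw [LinearIsometryEquiv.apply_symm_apply, map_zero] at this
    rw [this, norm_zero] at hwn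
    norm_num at hwn)
  rw [sub_zero, LinearIsometryEquiv.norm_map] at hx hy
  rw [hwn] at hy
  rw [norm_one] at hx
  have he : uu N m s (cz.symm 1) = uu N m s (cz.symm w) := by rw [hx, hy]
  unfold uu at he
  rw [LinearIsometryEquiv.norm_map, LinearIsometryEquiv.norm_map, hwn, norm_one] at he
  have h2 := WW_inj (add_left_cancel he)
  rw [LinearIsometryEquiv.apply_symm_apply, LinearIsometryEquiv.apply_symm_apply, FF, FF, hw,
    one_pow] at h2
  have e1 : (s : ℂ) * 1 - 1 = ((s - 1 : ℝ) : ℂ) := by push_cast; ring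
  have e2 : (s : ℂ) * (-1) - 1 = ((-(s + 1) : ℝ) : ℂ) := by push_cast; ring
  rw [e1, e2, Complex.norm_real, Complex.norm_real, Real.norm_eq_abs, Real.norm_eq_abs, abs_neg,
    abs_of_pos (show (0:ℝ) < s + 1 by linarith)] at h2
  rcases abs_cases (s - 1) with ⟨h3, _⟩ | ⟨h3, _⟩ <;> linarith

lemma not_radial_pos {N : ℝ} (hN : 0 < N) (m : ℕ) (s : ℝ) {c : E2} (hc : c ≠ 0) :
    ¬ ∃ h : ℝ → ℝ, ∀ x : E2, x ≠ 0 → uu N m s x = h ‖x - c‖ := by
  rintro ⟨h, hh⟩
  have h2c : (2 : ℝ) • c ≠ 0 := smul_ne_zero two_ne_zero hc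
  -- `u → -∞` at the origin
  have hlim : Tendsto (uu N m s) (𝓝[≠] 0) atBot := by
    have h1 : Tendsto (fun x : E2 => Real.log ‖x‖) (𝓝[≠] 0) atBot := by
      refine Real.tendsto_log_nhdsGT_zero.comp ?_
      exact tendsto_norm_nhdsNE_zero
    have h2 : Tendsto (fun x : E2 => 2 * N * Real.log ‖x‖) (𝓝[≠] 0) atBot :=
      h1.const_mul_atBot (by positivity)
    have h3 : Tendsto (WW m s) (𝓝[≠] 0) (𝓝 (WW m s 0)) :=
      ((contDiff_WW m s 0).continuous.tendsto 0).mono_left nhdsWithin_le_nhds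
    exact h2.atBot_add h3
  have hlim2 : Tendsto (fun x => uu N m s ((2 : ℝ) • c - x)) (𝓝[≠] 0) (𝓝 (uu N m s ((2 : ℝ) • c))) := by
    have h1 : ContinuousAt (uu N m s) ((2 : ℝ) • c) :=
      (((contDiffOn_uu N m s 0).continuousOn) _ h2c).continuousAt (isOpen_compl_singleton.mem_nhds h2c)
    have h2 : Tendsto (fun x : E2 => (2 : ℝ) • c - x) (𝓝[≠] 0) (𝓝 ((2 : ℝ) • c)) := by
      have : Continuous (fun x : E2 => (2 : ℝ) • c - x) := by fun_prop
      have := this.tendsto 0
      rw [sub_zero] at this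
      exact this.mono_left nhdsWithin_le_nhds
    exact h1.tendsto.comp h2
  have heq : (fun x => uu N m s ((2 : ℝ) • c - x)) =ᶠ[𝓝[≠] 0] uu N m s := by
    have h1 : ∀ᶠ x : E2 in 𝓝[≠] 0, x ≠ 0 := self_mem_nhdsWithin
    have h2 : ∀ᶠ x : E2 in 𝓝[≠] 0, (2 : ℝ) • c - x ≠ 0 := by
      apply mem_nhdsWithin_of_mem_nhds
      have : Continuous (fun x : E2 => (2 : ℝ) • c - x) := by fun_prop
      apply this.continuousAt.eventually_ne
      rw [sub_zero]; exact h2c
    filter_upwards [h1, h2] with x hx hx2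
    rw [hh x hx, hh _ hx2]
    congr 1
    have : (2 : ℝ) • c - x - c = -(x - c) := by rw [two_smul]; abel
    rw [this, norm_neg]
  exact not_tendsto_nhds_of_tendsto_atBot (hlim.congr' heq.symm) _ hlim2

lemma not_radial_max {m : ℕ} (hm : 1 ≤ m) {s : ℝ} (hs : 0 < s) {c : E2} (hc : c ≠ 0) :
    ¬ ∃ h : ℝ → ℝ, ∀ x : E2, x ≠ 0 → uu 0 m s x = h ‖x - c‖ := by
  rintro ⟨h, hh⟩
  -- the points where `F = 0`
  obtain ⟨r, hr0, hr⟩ : ∃ r : ℝ, 0 < r ∧ s * r ^ (m + 1) = 1 := by
    refine ⟨(s⁻¹) ^ ((m + 1 : ℕ) : ℝ)⁻¹, by positivity, ?_⟩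
    rw [Real.rpow_inv_natCast_pow (by positivity) (Nat.succ_ne_zero m)]
    field_simp
  have hzero : ∀ z : ℂ, FF m s z = 0 → ‖z‖ = r := by
    intro z hz
    have h1 : (s : ℂ) * z ^ (m + 1) = 1 := by rw [FF] at hz; linear_combination hz
    have h2 : s * ‖z‖ ^ (m + 1) = 1 := by
      have := congrArg norm h1
      rwa [norm_mul, norm_pow, norm_one, Complex.norm_real, Real.norm_eq_abs, abs_of_pos hs] at this
    have h3 : ‖z‖ ^ (m + 1) = r ^ (m + 1) := by
      have : s * ‖z‖ ^ (m + 1) = s * r ^ (m + 1) := by rw [h2, hr]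
      exact mul_left_cancel₀ hs.ne' this
    exact (pow_left_inj₀ (norm_nonneg _) hr0.le (Nat.succ_ne_zero m)).1 h3
  -- a point at the same distance from `c` as a zero is a zero
  have hstep : ∀ z z' : ℂ, FF m s z = 0 → ‖z' - cz c‖ = ‖z - cz c‖ → z' ≠ 0 → ‖z'‖ = r := by
    intro z z' hz hd hz'
    have hz0 : z ≠ 0 := by
      intro h0
      have := hzero z hz
      rw [h0, norm_zero] at this
      linarith
    have n0 : ∀ w : ℂ, w ≠ 0 → cz.symm w ≠ 0 := by
      intro w hw h0
      have := congrArg cz h0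
      rw [LinearIsometryEquiv.apply_symm_apply, map_zero] at this
      exact hw this
    have a1 := hh _ (n0 z hz0)
    have a2 := hh _ (n0 z' hz')
    have nn : ∀ w : ℂ, ‖cz.symm w - c‖ = ‖w - cz c‖ := by
      intro w
      rw [← LinearIsometryEquiv.norm_map cz (cz.symm w - c), map_sub,
        LinearIsometryEquiv.apply_symm_apply]
    rw [nn] at a1 a2
    rw [hd, ← a1] at a2
    unfold uu at a2
    have a3 := WW_inj (m := m) (s := s) (x := cz.symm z') (y := cz.symm z) (by linarith)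
    rw [LinearIsometryEquiv.apply_symm_apply, LinearIsometryEquiv.apply_symm_apply, hz,
      norm_zero, norm_eq_zero] at a3
    exact hzero z' a3
  -- hence every zero is `c`
  have hall : ∀ z : ℂ, FF m s z = 0 → z = cz c := by
    intro z hz
    obtain ⟨a, ha⟩ : ∃ a, a = (cz c).re := ⟨_, rfl⟩
    obtain ⟨b, hb⟩ : ∃ b, b = (cz c).im := ⟨_, rfl⟩
    obtain ⟨w, hw⟩ : ∃ w, w = z - cz c := ⟨_, rfl⟩
    have hab : a ^ 2 + b ^ 2 ≠ 0 := by
      intro h0
      apply hc
      have h1 : cz c = 0 := by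
        apply Complex.ext
        · rw [← ha]; simp; nlinarith
        · rw [← hb]; simp; nlinarith
      have := congrArg cz.symm h1
      rwa [LinearIsometryEquiv.symm_apply_apply, map_zero] at this
    have habp : 0 < a ^ 2 + b ^ 2 := lt_of_le_of_ne (by positivity) (Ne.symm hab)
    have key : ∀ v : ℂ, ‖v‖ = ‖w‖ → cz c + v ≠ 0 → (a + v.re) ^ 2 + (b + v.im) ^ 2 = r ^ 2 := by
      intro v hv hv0
      have h1 := hstep z (cz c + v) hz (by rw [add_sub_cancel_left, hv, hw]) hv0
      have h2 : ‖cz c + v‖ ^ 2 = r ^ 2 := by rw [h1]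
      rw [← Complex.normSq_eq_norm_sq, Complex.normSq_apply] at h2
      simp only [Complex.add_re, Complex.add_im, ← ha, ← hb] at h2
      nlinarith
    obtain ⟨p, hp⟩ : ∃ p, p = w.re := ⟨_, rfl⟩
    obtain ⟨q, hq⟩ : ∃ q, q = w.im := ⟨_, rfl⟩
    have k1 : (a + p) ^ 2 + (b + q) ^ 2 = r ^ 2 := by
      have h1 : ‖z‖ ^ 2 = r ^ 2 := by rw [hzero z hz]
      have h2 : z = cz c + w := by rw [hw]; ring
      rw [h2, ← Complex.normSq_eq_norm_sq, Complex.normSq_apply] at h1
      simp only [Complex.add_re, Complex.add_im, ← ha, ← hb, ← hp, ← hq] at h1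
      nlinarith
    have ne_of : ∀ v : ℂ, (a + v.re) ^ 2 + (b + v.im) ^ 2 ≠ 0 → cz c + v ≠ 0 := by
      intro v hv h0
      apply hv
      have h1 := congrArg Complex.re h0
      have h2 := congrArg Complex.im h0
      simp only [Complex.add_re, Complex.add_im, ← ha, ← hb, Complex.zero_re, Complex.zero_im] at h1 h2
      rw [h1, h2]; ring
    have k2 : (a - p) ^ 2 + (b - q) ^ 2 = 0 ∨ (a - p) ^ 2 + (b - q) ^ 2 = r ^ 2 := by
      by_cases h0 : (a - p) ^ 2 + (b - q) ^ 2 = 0
      · left; exact h0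
      · right
        have := key (-w) (by rw [norm_neg]) (ne_of (-w) (by
          simp only [Complex.neg_re, Complex.neg_im, ← hp, ← hq, ← sub_eq_add_neg]; exact h0))
        simp only [Complex.neg_re, Complex.neg_im, ← hp, ← hq, ← sub_eq_add_neg] at this
        exact this
    have k3 : (a - q) ^ 2 + (b + p) ^ 2 = 0 ∨ (a - q) ^ 2 + (b + p) ^ 2 = r ^ 2 := by
      by_cases h0 : (a - q) ^ 2 + (b + p) ^ 2 = 0
      · left; exact h0
      · right
        have := key (Complex.I * w) (by rw [norm_mul, Complex.norm_I, one_mul])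
          (ne_of (Complex.I * w) (by
          simp [← hp, ← hq, ← sub_eq_add_neg]; exact h0))
        simp [← hp, ← hq, ← sub_eq_add_neg] at this
        exact this
    have k4 : (a + q) ^ 2 + (b - p) ^ 2 = 0 ∨ (a + q) ^ 2 + (b - p) ^ 2 = r ^ 2 := by
      by_cases h0 : (a + q) ^ 2 + (b - p) ^ 2 = 0
      · left; exact h0
      · right
        have := key (-(Complex.I * w)) (by rw [norm_neg, norm_mul, Complex.norm_I, one_mul])
          (ne_of (-(Complex.I * w)) (by
          simp [← hp, ← hq, ← sub_eq_add_neg]; exact h0))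
        simp [← hp, ← hq, ← sub_eq_add_neg] at this
        exact this
    have hr2 : 0 < r ^ 2 := by positivity
    have hpq : p ^ 2 + q ^ 2 = 0 := by
      have sq0 : ∀ x y : ℝ, x ^ 2 + y ^ 2 = 0 → x = 0 ∧ y = 0 := by
        intro x y hxy
        have hx : x ^ 2 = 0 := by nlinarith [sq_nonneg x, sq_nonneg y]
        have hy : y ^ 2 = 0 := by nlinarith [sq_nonneg x, sq_nonneg y]
        exact ⟨pow_eq_zero_iff (by norm_num) |>.1 hx, pow_eq_zero_iff (by norm_num) |>.1 hy⟩
      rcases k2 with k2 | k2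
      · exfalso
        obtain ⟨h1, h2⟩ := sq0 _ _ k2
        have h1' : p = a := by linarith
        have h2' : q = b := by linarith
        subst h1' h2'
        rcases k3 with k3 | k3 <;> nlinarith
      · rcases k3 with k3 | k3
        · exfalso
          obtain ⟨h1, h2⟩ := sq0 _ _ k3
          have h1' : q = a := by linarith
          have h2' : p = -b := by linarith
          subst h1' h2'
          rcases k4 with k4 | k4 <;> nlinarith
        · rcases k4 with k4 | k4
          · exfalso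
            obtain ⟨h1, h2⟩ := sq0 _ _ k4
            have h1' : q = -a := by linarith
            have h2' : p = b := by linarith
            subst h1' h2'
            nlinarith
          · have e1 : a * p + b * q = 0 := by linarith
            have e2 : -a * q + b * p = 0 := by linarith
            have e3 : (a ^ 2 + b ^ 2) * (p ^ 2 + q ^ 2) = 0 := by
              have : (a ^ 2 + b ^ 2) * (p ^ 2 + q ^ 2) = (a * p + b * q) ^ 2 + (-a * q + b * p) ^ 2 := by
                ring
              rw [this, e1, e2]; ring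
            rcases mul_eq_zero.1 e3 with h | h
            · exact absurd h hab
            · exact h
    have hp0 : p = 0 := by nlinarith
    have hq0 : q = 0 := by nlinarith
    have hw0 : w = 0 := by
      apply Complex.ext
      · rw [← hp, hp0]; simp
      · rw [← hq, hq0]; simp
    rw [hw0] at hw
    exact (sub_eq_zero.1 hw.symm)
  -- two different zeros
  obtain ⟨ζ, hζ, hζ1⟩ : ∃ ζ : ℂ, ζ ^ (m + 1) = 1 ∧ ζ ≠ 1 := by
    have hprim := Complex.isPrimitiveRoot_exp (m + 1) (Nat.succ_ne_zero m)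
    exact ⟨_, hprim.pow_eq_one, hprim.ne_one (by omega)⟩
  have z1 : FF m s (r : ℂ) = 0 := by
    rw [FF]
    have : ((s * r ^ (m + 1) : ℝ) : ℂ) = 1 := by rw [hr]; simp
    push_cast at this
    rw [this, sub_self]
  have z2 : FF m s (r * ζ : ℂ) = 0 := by
    rw [FF, mul_pow, hζ, mul_one]
    have : ((s * r ^ (m + 1) : ℝ) : ℂ) = 1 := by rw [hr]; simp
    push_cast at this
    rw [this, sub_self]
  have e := (hall _ z1).trans (hall _ z2).symm
  apply hζ1
  have hrc : (r : ℂ) ≠ 0 := by exact_mod_cast hr0.ne'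
  have : (r : ℂ) * ζ = r * 1 := by rw [mul_one]; exact e.symm
  exact mul_left_cancel₀ hrc this

end Pool.Agent.J4.H76.LV
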